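import Mathlib.ModelTheory.Substructures
import Mathlib.ModelTheory.Semantics
import Mathlib.Data.Fintype.Pigeonhole
import Mathlib.Data.Finset.Card

/-!
# Sunflowerable structures: the working form

`Fam L M n` : every map `f : M → Finset X` with values of size `n` (not necessarily injective)
admits a self embedding `e` of `M` along which `f` is a sunflower family.
-/

open FirstOrder FirstOrder.Language

namespace Q202.Sun

universe u v w

variable (L : Language.{v, w}) (M : Type u) [L.Structure M]

/-- injective families of `n`-sets contain sunflowers along a self embedding. -/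
def InjFam (n : ℕ) : Prop :=
  ∀ (X : Type u) (f : M → Finset X), Function.Injective f → (∀ m, (f m).card = n) →
    ∃ (e : M ↪[L] M) (r : Set X), ∀ m m', m ≠ m' → (f (e m) : Set X) ∩ f (e m') = r

/-- all families of `n`-sets contain sunflowers along a self embedding. -/
def Fam (n : ℕ) : Prop :=
  ∀ (X : Type u) (f : M → Finset X), (∀ m, (f m).card = n) →
    ∃ (e : M ↪[L] M) (r : Set X), ∀ m m', m ≠ m' → (f (e m) : Set X) ∩ f (e m') = r

/-- the canonical property for unary maps. -/
def Canon : Prop :=
  ∀ (X : Type u) (h : M → X), ∃ e : M ↪[L] M, (∃ c, ∀ m, h (e m) = c) ∨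
    Function.Injective (fun m => h (e m))

variable {L M}

theorem canon_of_injFam (H : InjFam L M 2) : Canon L M := by
  classical
  intro X h
  obtain ⟨e, r, he⟩ := H (X ⊕ M) (fun m => {Sum.inl (h m), Sum.inr m})
    (by
      intro a b hab
      have : (Sum.inr a : X ⊕ M) ∈ ({Sum.inl (h a), Sum.inr a} : Finset (X ⊕ M)) := by simp
      have h2 : (Sum.inr a : X ⊕ M) ∈ ({Sum.inl (h b), Sum.inr b} : Finset (X ⊕ M)) := by
        have hab' : ({Sum.inl (h a), Sum.inr a} : Finset (X ⊕ M)) = {Sum.inl (h b), Sum.inr b} := hab
        rw [← hab']; exact this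
      simpa using h2)
    (by intro m; simp)
  refine ⟨e, ?_⟩
  by_cases hinj : Function.Injective (fun m => h (e m))
  · exact Or.inr hinj
  · left
    simp only [Function.Injective, not_forall] at hinj
    obtain ⟨a, b, hab, hne⟩ := hinj
    have hr := he a b hne
    have hmem : (Sum.inl (h (e a)) : X ⊕ M) ∈ r := by
      rw [← hr]; simp [hab]
    refine ⟨h (e a), fun m => ?_⟩
    by_cases hm : m = a
    · rw [hm]
    · have h3 := he m a hm
      have : (Sum.inl (h (e a)) : X ⊕ M) ∈
          ((({Sum.inl (h (e m)), Sum.inr (e m)} : Finset (X ⊕ M)) : Set (X ⊕ M)) ∩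
            ({Sum.inl (h (e a)), Sum.inr (e a)} : Finset (X ⊕ M))) := by
        rw [h3]; exact hmem
      have h4 := this.1
      simp at h4
      exact h4.symm

theorem canon_finite (H : Canon L M) {ι : Type*} (s : Finset ι) (X : Type u) (h : ι → M → X) :
    ∃ e : M ↪[L] M, ∀ i ∈ s, (∃ c, ∀ m, h i (e m) = c) ∨
      Function.Injective (fun m => h i (e m)) := by
  classical
  induction s using Finset.induction_on with
  | empty => exact ⟨Embedding.refl L M, by simp⟩
  | insert a s ha ih =>
    obtain ⟨e, he⟩ := ih
    obtain ⟨e', he'⟩ := H X (fun m => h a (e m))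
    refine ⟨e.comp e', ?_⟩
    intro i hi
    rcases Finset.mem_insert.1 hi with rfl | hi
    · simpa using he'
    · rcases he i hi with ⟨c, hc⟩ | hinj
      · exact Or.inl ⟨c, fun m => by simpa using hc (e' m)⟩
      · refine Or.inr ?_
        intro x y hxy
        have := hinj (a₁ := e' x) (a₂ := e' y) (by simpa using hxy)
        exact e'.injective this

theorem no_conflict [Infinite M] (H : InjFam L M 2) {X : Type u} (p q : M → X)
    (hp : Function.Injective p) (hq : Function.Injective q) (hpq : ∀ m, p m ≠ q m) :
    ∃ e : M ↪[L] M, ∀ m m', p (e m) ≠ q (e m') := by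
  classical
  have hC := canon_of_injFam H
  obtain ⟨e1, he1⟩ := hC (Finset X) (fun m => ({p m, q m} : Finset X))
  have hinj : Function.Injective (fun m => ({p (e1 m), q (e1 m)} : Finset X)) := by
    rcases he1 with ⟨c, hc⟩ | hinj
    · exfalso
      have hmem : ∀ m, p (e1 m) ∈ c := by
        intro m; rw [← hc m]; simp
      have hinj' : Function.Injective (fun m : M => (⟨p (e1 m), hmem m⟩ : {x // x ∈ c})) := by
        intro a b hab
        exact e1.injective (hp (congrArg Subtype.val hab))
      exact not_injective_infinite_finite _ hinj'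
    · exact hinj
  obtain ⟨e2, r, he2⟩ := H X (fun m => ({p (e1 m), q (e1 m)} : Finset X)) hinj
    (fun m => Finset.card_pair (hpq _))
  have hr : r = ∅ := by
    by_contra hne
    obtain ⟨x, hx⟩ := Set.nonempty_iff_ne_empty.2 hne
    have key : ∀ m, x = p (e1 (e2 m)) ∨ x = q (e1 (e2 m)) := by
      intro m
      obtain ⟨m', hm'⟩ := exists_ne m
      have h1 := he2 m m' hm'.symm
      have : x ∈ ((({p (e1 (e2 m)), q (e1 (e2 m))} : Finset X) : Set X) ∩
          ({p (e1 (e2 m')), q (e1 (e2 m'))} : Finset X)) := by rw [h1]; exact hx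
      simpa using this.1
    have hfin : Function.Injective (fun m : M => (decide (x = p (e1 (e2 m))) : Bool)) := by
      intro a b hab
      simp only [decide_eq_decide] at hab
      by_cases ha : x = p (e1 (e2 a))
      · have hb := hab.1 ha
        exact e2.injective (e1.injective (hp (ha.symm.trans hb)))
      · have hb : ¬ x = p (e1 (e2 b)) := fun h => ha (hab.2 h)
        have ha' := (key a).resolve_left ha
        have hb' := (key b).resolve_left hb
        exact e2.injective (e1.injective (hq (ha'.symm.trans hb')))
    exact not_injective_infinite_finite _ hfin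
  refine ⟨e1.comp e2, ?_⟩
  intro m m' heq
  simp only [Embedding.comp_apply] at heq
  by_cases hmm : m = m'
  · subst hmm; exact hpq _ heq
  · have h1 := he2 m m' hmm
    have : p (e1 (e2 m)) ∈ ((({p (e1 (e2 m)), q (e1 (e2 m))} : Finset X) : Set X) ∩
        ({p (e1 (e2 m')), q (e1 (e2 m'))} : Finset X)) := by
      refine ⟨by simp, ?_⟩
      rw [heq]; simp
    rw [h1, hr] at this
    exact this

theorem no_conflict_finite [Infinite M] (H : InjFam L M 2) {ι : Type*} (s : Finset (ι × ι))
    {X : Type u} (a : ι → M → X) (hinj : ∀ i, Function.Injective (a i))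
    (hne : ∀ i j, i ≠ j → ∀ m, a i m ≠ a j m) :
    ∃ e : M ↪[L] M, ∀ t ∈ s, t.1 ≠ t.2 → ∀ m m', a t.1 (e m) ≠ a t.2 (e m') := by
  classical
  induction s using Finset.induction_on with
  | empty => exact ⟨Embedding.refl L M, by simp⟩
  | insert t s ht ih =>
    obtain ⟨e, he⟩ := ih
    by_cases hd : t.1 = t.2
    · refine ⟨e, ?_⟩
      intro t' ht' hne'
      rcases Finset.mem_insert.1 ht' with rfl | h
      · exact absurd hd hne'
      · exact he t' h hne'
    · obtain ⟨e', he'⟩ := no_conflict H (fun m => a t.1 (e m)) (fun m => a t.2 (e m))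
        (fun x y h => e.injective (hinj _ h)) (fun x y h => e.injective (hinj _ h))
        (fun m => hne _ _ hd _)
      refine ⟨e.comp e', ?_⟩
      intro t' ht' hne' m m'
      rcases Finset.mem_insert.1 ht' with rfl | h
      · simpa using he' m m'
      · simpa using he t' h hne' (e' m) (e' m')

theorem fam_of_injFam [Infinite M] (H : InjFam L M 2) (n : ℕ) : Fam L M n := by
  classical
  have hC := canon_of_injFam H
  induction n with
  | zero =>
    intro X f hf
    refine ⟨Embedding.refl L M, ∅, ?_⟩
    intro m m' _
    have : f m = ∅ := Finset.card_eq_zero.1 (hf m)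
    simp [this]
  | succ n ih =>
    intro X f hf
    let a : Fin (n + 1) → M → X := fun i m => ((f m).equivFinOfCardEq (hf m)).symm i
    have ha_mem : ∀ i m, a i m ∈ f m := fun i m =>
      (((f m).equivFinOfCardEq (hf m)).symm i).2
    have ha_surj : ∀ m, ∀ x ∈ f m, ∃ i, a i m = x := by
      intro m x hx
      refine ⟨(f m).equivFinOfCardEq (hf m) ⟨x, hx⟩, ?_⟩
      simp [a]
    have ha_ne : ∀ i j, i ≠ j → ∀ m, a i m ≠ a j m := by
      intro i j hij m h
      apply hij
      have := Subtype.ext h
      exact ((f m).equivFinOfCardEq (hf m)).symm.injective this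
    obtain ⟨e, he⟩ := canon_finite hC Finset.univ X a
    by_cases hconst : ∃ i, ∃ c, ∀ m, a i (e m) = c
    · obtain ⟨i, c, hc⟩ := hconst
      have hcm : ∀ m, c ∈ f (e m) := fun m => by rw [← hc m]; exact ha_mem i (e m)
      obtain ⟨e', r, he'⟩ := ih X (fun m => (f (e m)).erase c)
        (fun m => by rw [Finset.card_erase_of_mem (hcm m), hf]; rfl)
      refine ⟨e.comp e', insert c r, ?_⟩
      intro m m' hm
      have h1 := he' m m' hm
      ext x
      have h2 := Set.ext_iff.1 h1 x
      simp only [Finset.coe_erase, Set.mem_inter_iff, Set.mem_sdiff, Finset.mem_coe,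
        Set.mem_singleton_iff] at h2
      simp only [Embedding.comp_apply, Set.mem_inter_iff, Finset.mem_coe, Set.mem_insert_iff]
      constructor
      · rintro ⟨h3, h4⟩
        by_cases hx : x = c
        · exact Or.inl hx
        · exact Or.inr (h2.1 ⟨⟨h3, hx⟩, h4, hx⟩)
      · rintro (rfl | h3)
        · exact ⟨hcm _, hcm _⟩
        · have := h2.2 h3
          exact ⟨this.1.1, this.2.1⟩
    · push Not at hconst
      have hinj : ∀ i, Function.Injective (fun m => a i (e m)) := by
        intro i
        rcases he i (Finset.mem_univ _) with ⟨c, hc⟩ | h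
        · obtain ⟨m, hm⟩ := hconst i c
          exact absurd (hc m) hm
        · exact h
      obtain ⟨e', he'⟩ := no_conflict_finite H Finset.univ (fun i m => a i (e m)) hinj
        (fun i j hij m => ha_ne i j hij _)
      refine ⟨e.comp e', ∅, ?_⟩
      intro m m' hm
      ext x
      simp only [Embedding.comp_apply, Set.mem_inter_iff, Finset.mem_coe, Set.mem_empty_iff_false,
        iff_false, not_and]
      intro hx hx'
      obtain ⟨i, hi⟩ := ha_surj _ _ hx
      obtain ⟨j, hj⟩ := ha_surj _ _ hx'
      by_cases hij : i = j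
      · subst hij
        exact hm (e'.injective (hinj i (hi.trans hj.symm)))
      · exact he' (i, j) (Finset.mem_univ _) hij m m' (hi.trans hj.symm)

end Q202.Sun
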