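import Pool.Agent.Q202.Sun.Defs
import Mathlib.Logic.Small.Defs
import Mathlib.Logic.Small.Basic
import Mathlib.Data.Countable.Small

/-!
# Sunflowerable structures: passing to an arbitrary universe
-/

open FirstOrder FirstOrder.Language

namespace Q202.Sun

universe u v w x

variable {L : Language.{v, w}} {M : Type u} [L.Structure M]

theorem fam_univ [Infinite M] (H : InjFam L M 2) (n : ℕ) (X : Type x) (f : M → Finset X)
    (hf : ∀ m, (f m).card = n) :
    ∃ (e : M ↪[L] M) (r : Set X), ∀ m m', m ≠ m' → (f (e m) : Set X) ∩ f (e m') = r := by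
  classical
  let U : Type x := {a : X // ∃ m, a ∈ f m}
  have hs : Small.{u} U := by
    let g : (Σ m : M, {a : X // a ∈ f m}) → U := fun t => ⟨t.2.1, t.1, t.2.2⟩
    have hg : Function.Surjective g := by
      rintro ⟨a, m, hm⟩
      exact ⟨⟨m, a, hm⟩, rfl⟩
    exact small_of_surjective hg
  let φ : U ≃ Shrink.{u} U := equivShrink U
  let f' : M → Finset (Shrink.{u} U) := fun m =>
    (f m).attach.map ⟨fun t => φ ⟨t.1, m, t.2⟩, by
      intro s t hst
      have h1 := φ.injective hst
      exact Subtype.ext (congrArg (fun z : U => z.1) h1)⟩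
  have hf'mem : ∀ m (z : U), φ z ∈ f' m ↔ z.1 ∈ f m := by
    intro m z
    simp only [f', Finset.mem_map, Finset.mem_attach, Function.Embedding.coeFn_mk, true_and,
      EmbeddingLike.apply_eq_iff_eq]
    constructor
    · rintro ⟨t, ht⟩
      have := congrArg Subtype.val ht
      simp only at this
      rw [← this]; exact t.2
    · intro h
      exact ⟨⟨z.1, h⟩, Subtype.ext rfl⟩
  have hcard : ∀ m, (f' m).card = n := by
    intro m; simp [f', hf]
  obtain ⟨e, r, he⟩ := fam_of_injFam H n (Shrink.{u} U) f' hcard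
  refine ⟨e, {a | ∃ z : U, z.1 = a ∧ φ z ∈ r}, ?_⟩
  intro m m' hm
  have h1 := he m m' hm
  ext a
  simp only [Set.mem_inter_iff, Finset.mem_coe, Set.mem_ofPred_eq]
  constructor
  · rintro ⟨ha, ha'⟩
    refine ⟨⟨a, _, ha⟩, rfl, ?_⟩
    rw [← h1]
    exact ⟨(hf'mem _ _).2 ha, (hf'mem _ _).2 ha'⟩
  · rintro ⟨z, rfl, hz⟩
    rw [← h1] at hz
    exact ⟨(hf'mem _ _).1 hz.1, (hf'mem _ _).1 hz.2⟩

end Q202.Sun
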